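import Pool.Agent.Helper11.PV.St

/-!
# Project PV, module PHB (basic properties of the leftover functional)
-/

set_option autoImplicit false

namespace Pool.Agent.Helper82.PV

open Finset Pool.Agent.Helper82.CN Pool.Agent.Helper11.PV

variable {V : Type}

theorem Ph_le {l : ℕ} {G : SimpleGraph V} {U : Finset V} {k : ℕ} (h : PC G U k) :
    Ph l G ≤ l * k + U.card := Nat.sInf_le ⟨U, k, h, rfl⟩

theorem pc_univ [Fintype V] (G : SimpleGraph V) : PC G (univ : Finset V) 0 :=
  ⟨fun _ => 0, fun v hv => absurd (mem_univ v) hv, fun u _ hu _ _ => absurd (mem_univ u) hu⟩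

theorem Ph_mem [Fintype V] (l : ℕ) (G : SimpleGraph V) :
    ∃ (U : Finset V) (k : ℕ), PC G U k ∧ Ph l G = l * k + U.card :=
  Nat.sInf_mem (s := {m | ∃ (U : Finset V) (k : ℕ), PC G U k ∧ m = l * k + U.card})
    ⟨_, univ, 0, pc_univ G, rfl⟩

theorem tPHB : Pool.Agent.Helper11.PV.StPHB := by
  intro V _ _ l
  refine ⟨?_, ?_, ?_, ?_, ?_⟩
  · intro G
    have := Ph_le (l := l) (pc_univ G)
    simpa using this
  · intro G G' hG
    obtain ⟨U, k, ⟨c, hc1, hc2⟩, he⟩ := Ph_mem l G'
    rw [he]
    exact Ph_le ⟨c, hc1, fun u v hu hv h => hc2 u v hu hv (hG h)⟩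
  · intro G G' x hx
    obtain ⟨U, k, ⟨c, hc1, hc2⟩, he⟩ := Ph_mem l G
    rw [he]
    have h1 : PC G' (insert x U) k := by
      refine ⟨c, fun v hv => hc1 v (fun h => hv (mem_insert_of_mem h)), ?_⟩
      intro u v hu hv h
      rcases hx u v h with h | h | h
      · exact hc2 u v (fun h => hu (mem_insert_of_mem h)) (fun h => hv (mem_insert_of_mem h)) h
      · exact absurd (h ▸ mem_insert_self _ _) hu
      · exact absurd (h ▸ mem_insert_self _ _) hv
    have h2 := Ph_le (l := l) h1
    have h3 := Finset.card_insert_le x U
    omega
  · intro G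
    have hcol : G.Colorable G.chromaticNumber.toNat := by
      have h1 := G.colorable_of_fintype
      exact SimpleGraph.colorable_chromaticNumber h1
    obtain ⟨C⟩ := hcol
    have h1 : PC G (∅ : Finset V) G.chromaticNumber.toNat :=
      ⟨fun v => (C v : ℕ), fun v _ => (C v).2, fun u v _ _ h he => C.valid h (Fin.ext he)⟩
    simpa using Ph_le (l := l) h1
  · intro G m hm
    obtain ⟨U, k, ⟨c, hc1, hc2⟩, he⟩ := Ph_mem l G
    have hU : U.card < m := by
      by_contra hcon
      obtain ⟨T, hT, hTc, hTi⟩ := hm U (not_lt.mp hcon)
      have h1 : PC G (U \ T) (k + 1) := by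
        classical
        refine ⟨fun v => if v ∈ T then k else c v, ?_, ?_⟩
        · intro v hv
          by_cases hvT : v ∈ T
          · simp only [hvT, if_true]; omega
          · simp only [hvT, if_false]
            have : v ∉ U := fun h => hv (mem_sdiff.2 ⟨h, hvT⟩)
            have := hc1 v this
            omega
        · intro u v hu hv h
          by_cases huT : u ∈ T
          · by_cases hvT : v ∈ T
            · exact absurd h (hTi u huT v hvT)
            · simp only [huT, hvT, if_true, if_false]
              have : v ∉ U := fun h => hv (mem_sdiff.2 ⟨h, hvT⟩)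
              have := hc1 v this
              omega
          · have huU : u ∉ U := fun h => hu (mem_sdiff.2 ⟨h, huT⟩)
            by_cases hvT : v ∈ T
            · simp only [huT, hvT, if_true, if_false]
              have := hc1 u huU
              omega
            · simp only [huT, hvT, if_false]
              have hvU : v ∉ U := fun h => hv (mem_sdiff.2 ⟨h, hvT⟩)
              exact hc2 u v huU hvU h
      have h2 := Ph_le (l := l) h1
      have h3 := Finset.card_sdiff_add_card_eq_card hT
      rw [he] at h2
      have h4 : l * (k + 1) = l * k + l := by ring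
      omega
    have hcol : G.Colorable (k + U.card) := by
      classical
      have hlt : ∀ v : V, (if h : v ∈ U then k + (U.equivFin ⟨v, h⟩ : ℕ) else c v) <
          k + U.card := by
        intro v
        by_cases hv : v ∈ U
        · simp only [hv, dif_pos]
          have := (U.equivFin ⟨v, hv⟩).2
          omega
        · simp only [hv, dif_neg, not_false_eq_true]
          have := hc1 v hv
          omega
      refine ⟨SimpleGraph.Coloring.mk (fun v => ⟨_, hlt v⟩) ?_⟩
      intro u v h heq
      have h1 := congrArg Fin.val heq
      simp only at h1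
      by_cases hu : u ∈ U
      · by_cases hv : v ∈ U
        · simp only [hu, hv, dif_pos] at h1
          have h2 : U.equivFin ⟨u, hu⟩ = U.equivFin ⟨v, hv⟩ := Fin.ext (by omega)
          have h3 := U.equivFin.injective h2
          have h4 : u = v := congrArg Subtype.val h3
          exact h.ne h4
        · simp only [hu, hv, dif_pos, dif_neg, not_false_eq_true] at h1
          have := hc1 v hv
          omega
      · by_cases hv : v ∈ U
        · simp only [hu, hv, dif_pos, dif_neg, not_false_eq_true] at h1
          have := hc1 u hu
          omega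
        · simp only [hu, hv, dif_neg, not_false_eq_true] at h1
          exact hc2 u v hu hv h h1
    have hchi : G.chromaticNumber.toNat ≤ k + U.card := by
      have h1 := hcol.chromaticNumber_le
      have h2 := ENat.toNat_le_toNat h1 (ENat.natCast_ne_top _)
      rwa [ENat.toNat_natCast] at h2
    rw [he]
    calc l * G.chromaticNumber.toNat ≤ l * (k + U.card) := Nat.mul_le_mul_left _ hchi
      _ = l * k + l * U.card := by ring
      _ ≤ l * k + l * m := Nat.add_le_add_left (Nat.mul_le_mul_left _ hU.le) _
      _ ≤ l * k + U.card + l * m := by omega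

end Pool.Agent.Helper82.PV
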