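import Pool.Agent.Helper11.PV.St

/-!
# Project PV, module RUS (Russo's formula)
-/

set_option autoImplicit false

namespace Pool.Agent.Helper82.PV

open Finset Pool.Agent.Helper82.CN Pool.Agent.Helper11.PV

theorem rus_fin (p : ℝ) : ∀ (N : ℕ) (F : (Fin N → Bool) → ℝ),
    HasDerivAt (fun q : ℝ => EE q F) (∑ i, EE p (DD F i)) p := by
  intro N
  induction N with
  | zero =>
    intro F
    have h : (fun q : ℝ => EE q F) = fun _ => F Fin.elim0 := by
      funext q; exact EE_zero q F
    rw [h, Fin.sum_univ_zero]
    exact hasDerivAt_const p _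
  | succ N ih =>
    intro F
    have h0 := ih (fun ω => F (Fin.cons false ω))
    have h1 := ih (fun ω => F (Fin.cons true ω))
    have hq : HasDerivAt (fun q : ℝ => (1 - q)) (-1) p := by
      simpa using (hasDerivAt_id p).const_sub 1
    have hq1 : HasDerivAt (fun q : ℝ => q) 1 p := hasDerivAt_id p
    have hd := (hq.mul h0).add (hq1.mul h1)
    have e1 : (fun q : ℝ => EE q F) =
        ((fun q : ℝ => (1 - q)) * fun q : ℝ => EE q (fun ω : Fin N → Bool => F (Fin.cons false ω))) +
        ((fun q : ℝ => q) * fun q : ℝ => EE q (fun ω : Fin N → Bool => F (Fin.cons true ω))) := by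
      funext q
      simp only [Pi.add_apply, Pi.mul_apply]
      exact EE_succ q F
    rw [e1]
    refine hd.congr_deriv ?_
    rw [Fin.sum_univ_succ]
    have e2 : EE p (DD F 0) = EE p (fun ω : Fin N → Bool => F (Fin.cons true ω)) -
        EE p (fun ω : Fin N → Bool => F (Fin.cons false ω)) := by
      rw [EE_succ]
      simp only [DD_zero]
      rw [EE_sub]
      ring
    have e3 : ∀ i : Fin N, EE p (DD F i.succ) =
        (1 - p) * EE p (DD (fun ω : Fin N → Bool => F (Fin.cons false ω)) i) +
        p * EE p (DD (fun ω : Fin N → Bool => F (Fin.cons true ω)) i) := by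
      intro i
      rw [EE_succ]
      simp only [DD_succ]
    rw [e2, Finset.sum_congr rfl (fun i _ => e3 i), Finset.sum_add_distrib, ← Finset.mul_sum,
      ← Finset.mul_sum]
    ring

theorem tRUS : Pool.Agent.Helper11.PV.StRUS := by
  intro p ι _ _ F
  have e := Fintype.equivFin ι
  have h := rus_fin p (Fintype.card ι) (fun ω => F (fun i => ω (e i)))
  have e1 : (fun q : ℝ => EE q (fun ω : Fin (Fintype.card ι) → Bool => F (fun i => ω (e i)))) =
      fun q : ℝ => EE q F := by
    funext q; exact EE_equiv q e F
  rw [e1] at h
  refine h.congr_deriv ?_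
  refine (Fintype.sum_equiv e _ _ fun i => ?_).symm
  have e2 : DD (fun ω : Fin (Fintype.card ι) → Bool => F (fun i => ω (e i))) (e i) =
      fun ω : Fin (Fintype.card ι) → Bool => DD F i (fun j => ω (e j)) := by
    funext ω
    have e3 : ∀ b : Bool, (fun j => Function.update ω (e i) b (e j)) =
        Function.update (fun j => ω (e j)) i b := by
      intro b
      funext j
      by_cases hj : j = i
      · subst hj; simp
      · have : e j ≠ e i := fun h => hj (e.injective h)
        rw [Function.update_of_ne this, Function.update_of_ne hj]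
    unfold DD
    simp only [e3]
  rw [e2, EE_equiv p e (DD F i)]

end Pool.Agent.Helper82.PV
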