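import Pool.Agent.Helper82.PV.M_Smo

/-!
# Project PV, module Lo2 (no prime value before `c S`: the main range)
-/

set_option autoImplicit false

namespace Pool.Agent.Helper82.PV

open Pool.Agent.Helper61.PV Finset
open Pool.Agent.Helper48.BK (th StSW)

lemma lin_one_zero {d : ℕ} (g : Fin (d + 1) → ℤ) : lin (1 : ℤ) 0 g = g := by
  funext i
  simp [lin]

lemma lower_thz (hSiz : StSiz) {d m H : ℕ} {κ : ℝ} {c : Fin (d + 1) → ℤ} (hκ : 0 < κ) (hκ4 : κ ≤ 1 / 4)
    (hH : 3 ≤ H) (hH4 : (2 / κ) ^ 2 ≤ H) (hc : ∀ i, |(c i : ℝ)| ≤ 2 * H)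
    (hcd : κ * H ≤ c (Fin.last d)) (hm : 1 + 8 / κ ≤ m) (hp : (ev c m).toNat.Prime) :
    1 / 2 * (Real.log H + d * Real.log m) ≤ thz (ev c m) := by
  have hHp : (0 : ℝ) < H := by positivity
  have h8 : 0 < 8 / κ := by positivity
  have hm1 : (1 : ℝ) ≤ m := by linarith
  have h4 : 4 / κ ≤ 8 / κ := by gcongr; norm_num
  obtain ⟨s1, _⟩ := hSiz d m c H κ hκ (by linarith) hHp.le hc hcd (by linarith)
  have hpos : 0 < κ * H * (m : ℝ) ^ d / 2 := by positivity
  have hth : thz (ev c m) = Real.log ((ev c m : ℤ) : ℝ) := by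
    unfold thz th
    rw [if_pos hp]
    congr 1
    have h0 : 0 ≤ ev c m := by
      have : (0 : ℝ) ≤ ((ev c m : ℤ) : ℝ) := hpos.le.trans s1
      exact_mod_cast this
    exact_mod_cast Int.toNat_of_nonneg h0
  rw [hth]
  have hlog := Real.log_le_log hpos s1
  refine le_trans ?_ hlog
  have e1 : κ * H * (m : ℝ) ^ d / 2 = (κ * H / 2) * (m : ℝ) ^ d := by ring
  rw [e1, Real.log_mul (by positivity) (by positivity), Real.log_pow]
  have h5 : √(H : ℝ) ≤ κ * H / 2 := by
    have h6 : 2 / κ ≤ √(H : ℝ) := Real.le_sqrt_of_sq_le hH4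
    have h7 : √(H : ℝ) * √(H : ℝ) = H := Real.mul_self_sqrt hHp.le
    have h9 : 2 ≤ κ * √(H : ℝ) := by
      rw [div_le_iff₀ hκ] at h6
      linarith
    have h10 : 0 ≤ √(H : ℝ) := Real.sqrt_nonneg _
    calc √(H : ℝ) = 2 * √(H : ℝ) / 2 := by ring
      _ ≤ (κ * √(H : ℝ)) * √(H : ℝ) / 2 := by gcongr
      _ = κ * H / 2 := by rw [mul_assoc, h7]
  have h11 : 1 / 2 * Real.log H ≤ Real.log (κ * H / 2) := by
    have h12 : Real.log (√(H : ℝ)) = 1 / 2 * Real.log H := by
      rw [Real.log_sqrt hHp.le]; ring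
    rw [← h12]
    exact Real.log_le_log (Real.sqrt_pos.2 hHp) h5
  have h13 : 0 ≤ (d : ℝ) * Real.log m := mul_nonneg (by positivity) (Real.log_nonneg hm1)
  linarith

theorem hLo2 (hMom : StMom) (hSiz : StSiz) (hNul : StNul) (hCar : StCar) : StLo2 := by
  classical
  intro κ ε hκ hκ4 hε
  obtain ⟨c', H₂, hc'0, hc'1, hN⟩ := hNul (ε / 4) (by positivity)
  obtain ⟨H₁, hM⟩ := hMom 1 1 κ (1 / 2) le_rfl one_pos hκ (by linarith) (by norm_num) (by norm_num)
  refine ⟨c', max (max H₁ H₂) (max 3 ⌈(2 / κ) ^ 2⌉₊), hc'0, ?_⟩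
  intro H hH d hd hdH
  have hH1 : H₁ ≤ H := (le_max_left _ _).trans ((le_max_left _ _).trans hH)
  have hH2 : H₂ ≤ H := (le_max_right _ _).trans ((le_max_left _ _).trans hH)
  have hH3 : 3 ≤ H := (le_max_left _ _).trans ((le_max_right _ _).trans hH)
  have hH4 : (2 / κ) ^ 2 ≤ H := Nat.ceil_le.1 ((le_max_right _ _).trans ((le_max_right _ _).trans hH))
  have hHr : (3 : ℝ) ≤ H := by exact_mod_cast hH3
  have hHp : (0 : ℝ) < H := by linarith
  have hL1 : 1 ≤ Real.log H := by
    rw [Real.le_log_iff_exp_le hHp]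
    exact (Real.exp_one_lt_three.le).trans hHr
  have hdr : (1 : ℝ) ≤ d := by exact_mod_cast hd
  have hS0 : 0 ≤ Sz H d := by
    unfold Sz
    have : 0 ≤ Real.log (d + Real.log H) := Real.log_nonneg (by linarith)
    positivity
  have h8κ : 8 / κ ≥ 32 := by
    rw [ge_iff_le, le_div_iff₀ hκ]; linarith
  -- the box
  set K : ℕ := ⌈κ * H⌉₊ with hK
  have hK1 : κ * H ≤ K := Nat.le_ceil _
  have hK2 : (K : ℝ) < κ * H + 1 := Nat.ceil_lt_add_one (by positivity)
  have hκH : κ * H ≤ 1 / 4 * H := mul_le_mul_of_nonneg_right hκ4 hHp.le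
  have hKH : K ≤ H := by
    have : (K : ℝ) ≤ H := by linarith
    exact_mod_cast this
  have hK0 : 1 ≤ K := Nat.one_le_iff_ne_zero.2 fun h0 => by
    have : 0 < κ * H := by positivity
    rw [h0] at hK1
    norm_num at hK1
    linarith
  set A : Fin (d + 1) → ℤ := fun i => if (i : ℕ) < d then -(H : ℤ) else K with hA
  set h : Fin (d + 1) → ℕ := fun i => if (i : ℕ) < d then 2 * H + 1 else H + 1 - K with hh
  have hsubr : ((H + 1 - K : ℕ) : ℝ) = H + 1 - K := by
    rw [Nat.cast_sub (by omega)]; push_cast; ring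
  have hCond : Cond 1 H κ (0 : Fin (d + 1) → ℤ) A h := by
    refine ⟨fun i => by simp, fun i => ?_, fun i => ?_, ?_⟩
    · simp only [hh]
      split_ifs
      · push_cast; linarith
      · rw [hsubr]; push_cast; linarith
    · simp only [hA, hh, Pi.zero_apply]
      split_ifs
      · push_cast; constructor <;> linarith
      · push_cast [Nat.cast_sub (by omega : K ≤ H + 1)]
        have : (0 : ℤ) ≤ K := Nat.cast_nonneg K
        constructor <;> linarith
    · simp only [hA, Pi.zero_apply, Fin.val_last, lt_irrefl, if_false]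
      push_cast
      linarith
  have hbox : Bx A h ⊆ Bxx d H := by
    intro c hc
    rw [mem_Bx] at hc
    unfold Bxx
    rw [mem_Bx]
    intro i
    have := hc i
    simp only [hA, hh] at this ⊢
    split_ifs at this ⊢ with hi
    · exact this
    · push_cast [Nat.cast_sub (by omega : K ≤ H + 1)] at this ⊢
      have hK0' : (1 : ℤ) ≤ K := by exact_mod_cast hK0
      constructor <;> linarith [this.1, this.2]
  have hbox2 : ∀ c ∈ Bxx d H, κ * H ≤ c (Fin.last d) → c ∈ Bx A h := by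
    intro c hc hcd
    unfold Bxx at hc
    rw [mem_Bx] at hc
    rw [mem_Bx]
    intro i
    have := hc i
    simp only [hA, hh] at this ⊢
    split_ifs at this ⊢ with hi
    · exact this
    · have hil : i = Fin.last d := by
        apply Fin.ext
        simp only [Fin.val_last]
        have := i.isLt
        omega
      subst hil
      have hc0 : 0 ≤ c (Fin.last d) := by linarith [this.1]
      have h1 : K ≤ (c (Fin.last d)).toNat := by
        rw [hK, Nat.ceil_le]
        refine hcd.trans (le_of_eq ?_)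
        exact_mod_cast (Int.toNat_of_nonneg hc0).symm
      have h2 : (K : ℤ) ≤ c (Fin.last d) := by
        rw [← Int.toNat_of_nonneg hc0]; exact_mod_cast h1
      push_cast [Nat.cast_sub (by omega : K ≤ H + 1)] at this ⊢
      constructor <;> linarith [this.1, this.2]
  have hcoef : ∀ c ∈ Bx A h, (∀ i, |(c i : ℝ)| ≤ 2 * H) ∧ κ * H ≤ c (Fin.last d) := by
    intro c hc
    rw [mem_Bx] at hc
    refine ⟨fun i => ?_, ?_⟩
    · have h1 := hc i
      have h2 : -(H : ℤ) ≤ c i ∧ c i ≤ H := by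
        simp only [hA, hh] at h1
        split_ifs at h1 with hi
        · push_cast at h1
          constructor <;> linarith [h1.1, h1.2]
        · push_cast [Nat.cast_sub (by omega : K ≤ H + 1)] at h1
          have : (0 : ℤ) ≤ K := Nat.cast_nonneg K
          have hH0 : (0 : ℤ) ≤ H := Nat.cast_nonneg H
          constructor <;> linarith [h1.1, h1.2]
      have h3 : (-(H : ℝ)) ≤ c i := by exact_mod_cast h2.1
      have h4 : (c i : ℝ) ≤ H := by exact_mod_cast h2.2
      rw [abs_le]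
      constructor <;> linarith
    · have h1 := (hc (Fin.last d)).1
      simp only [hA, Fin.val_last, lt_irrefl, if_false] at h1
      have h2 : (K : ℝ) ≤ c (Fin.last d) := by exact_mod_cast h1
      linarith
  -- the bad sets
  set T : ℕ → Finset (Fin (d + 1) → ℤ) := fun m => (Bx A h).filter (fun g => (ev g m).toNat.Prime)
    with hT
  set M : Finset ℕ := (range (⌊c' * Sz H d⌋₊ + 1)).filter (fun m => 3 ≤ m) with hMd
  set PP : ℝ := ∏ i, (h i : ℝ) with hPP
  have hPP0 : 0 ≤ PP := prod_nonneg fun i _ => Nat.cast_nonneg _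
  have hPPle : PP ≤ #(Bxx d H) := by
    have h1 : ((#(Bx A h) : ℕ) : ℝ) = PP := by
      rw [(hCar d A h).1]; push_cast; rfl
    rw [← h1]
    exact_mod_cast card_le_card hbox
  have hTm : ∀ m : ℕ, 1 + 8 / κ ≤ m → (m : ℝ) ≤ c' * Sz H d →
      (#(T m) : ℝ) ≤ 4 * PP * (1 / (Real.log H + d * Real.log m)) := by
    intro m hm hmS
    have hm1 : (1 : ℝ) ≤ m := by linarith
    have hlm : 0 ≤ Real.log m := Real.log_nonneg hm1
    have hden : 0 < Real.log H + d * Real.log m := by positivity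
    have hmS' : (m : ℝ) ≤ 1 * Sz H d := hmS.trans (mul_le_mul_of_nonneg_right hc'1 hS0)
    have h1 := ((hM H hH1 d hd hdH 0 A h hCond).1 m hm hmS' (Nat.coprime_one_right _)).2
    simp only [Nat.cast_one, lin_one_zero, Nat.totient_one, div_one, mul_one] at h1
    have h2 : (#(T m) : ℝ) * (1 / 2 * (Real.log H + d * Real.log m)) ≤
        ∑ g ∈ Bx A h, thz (ev g m) := by
      calc (#(T m) : ℝ) * (1 / 2 * (Real.log H + d * Real.log m))
          = ∑ _g ∈ T m, 1 / 2 * (Real.log H + d * Real.log m) := by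
            rw [sum_const, nsmul_eq_mul]
        _ ≤ ∑ g ∈ T m, thz (ev g m) := by
            refine sum_le_sum fun g hg => ?_
            rw [hT, mem_filter] at hg
            obtain ⟨h3, h4⟩ := hcoef g hg.1
            exact lower_thz hSiz hκ hκ4 hH3 hH4 h3 h4 hm hg.2
        _ ≤ ∑ g ∈ Bx A h, thz (ev g m) :=
            sum_le_sum_of_subset_of_nonneg (filter_subset _ _) fun g _ _ => thz_nn _
    rw [mul_one_div, le_div_iff₀ hden]
    have h5 := h2.trans h1
    have h6 : (#(T m) : ℝ) * (Real.log H + d * Real.log m) ≤ 3 * PP := by linarith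
    linarith
  set U : Finset (Fin (d + 1) → ℤ) := (Bxx d H).filter (fun c => κ * H ≤ c (Fin.last d) ∧
    ∃ m : ℕ, 1 + 8 / κ ≤ m ∧ (m : ℝ) ≤ c' * Sz H d ∧ (ev c m).toNat.Prime) with hU
  have hcardU : Nat.card {c : Fin (d + 1) → ℤ // c ∈ Bxx d H ∧ κ * H ≤ c (Fin.last d) ∧
      ∃ m : ℕ, 1 + 8 / κ ≤ m ∧ (m : ℝ) ≤ c' * Sz H d ∧ (ev c m).toNat.Prime} = #U :=
    Nat.subtype_card U (fun c => by rw [hU, mem_filter])
  rw [hcardU]
  set M' : Finset ℕ := M.filter (fun m : ℕ => 1 + 8 / κ ≤ (m : ℝ)) with hM'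
  have hsub : U ⊆ M'.biUnion T := by
    intro c hc
    rw [hU, mem_filter] at hc
    obtain ⟨hc1, hc2, m, hm1, hm2, hm3⟩ := hc
    rw [mem_biUnion]
    refine ⟨m, ?_, ?_⟩
    · rw [hM', mem_filter, hMd, mem_filter, mem_range]
      refine ⟨⟨Nat.lt_succ_of_le (Nat.le_floor hm2), ?_⟩, hm1⟩
      have : (3 : ℝ) ≤ m := by linarith
      exact_mod_cast this
    · rw [hT, mem_filter]
      exact ⟨hbox2 c hc1 hc2, hm3⟩
  calc ((#U : ℕ) : ℝ) ≤ ((#(M'.biUnion T) : ℕ) : ℝ) := by exact_mod_cast card_le_card hsub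
    _ ≤ ((∑ m ∈ M', #(T m) : ℕ) : ℝ) := by exact_mod_cast card_biUnion_le
    _ = ∑ m ∈ M', (#(T m) : ℝ) := by push_cast; rfl
    _ ≤ ∑ m ∈ M', 4 * PP * (1 / (Real.log H + d * Real.log m)) := by
        refine sum_le_sum fun m hm => ?_
        rw [hM', mem_filter, hMd, mem_filter, mem_range] at hm
        refine hTm m hm.2 ?_
        exact (Nat.le_floor_iff (by positivity)).1 (Nat.lt_succ_iff.1 hm.1.1)
    _ ≤ ∑ m ∈ M, 4 * PP * (1 / (Real.log H + d * Real.log m)) := by
        refine sum_le_sum_of_subset_of_nonneg (filter_subset _ _) fun m hm _ => ?_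
        rw [hMd, mem_filter] at hm
        have hm1 : (1 : ℝ) ≤ m := by exact_mod_cast (by omega : 1 ≤ m)
        have hlm : 0 ≤ Real.log m := Real.log_nonneg hm1
        positivity
    _ = 4 * PP * ∑ m ∈ M, 1 / (Real.log H + d * Real.log m) := by rw [mul_sum]
    _ ≤ 4 * PP * (ε / 4) := mul_le_mul_of_nonneg_left (hN H hH2 d hd) (by positivity)
    _ = ε * PP := by ring
    _ ≤ ε * #(Bxx d H) := mul_le_mul_of_nonneg_left hPPle hε.le

end Pool.Agent.Helper82.PV
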