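import Pool.Agent.Helper61.PV.St

/-!
# Project PV, module Smo (pair moment)
-/

set_option autoImplicit false

namespace Pool.Agent.Helper82.PV

open Pool.Agent.Helper61.PV Finset
open Pool.Agent.Helper48.BK (th StSW)

lemma th_nn (n : ℕ) : 0 ≤ th n := by
  unfold th
  split_ifs
  · exact Real.log_natCast_nonneg n
  · exact le_rfl

lemma thz_nn (n : ℤ) : 0 ≤ thz n := th_nn _

lemma ev_lin_add {d : ℕ} (W : ℤ) (F a b : Fin (d + 1) → ℤ) (m : ℤ) :
    ev (lin W F (a + b)) m = ev (lin W F a) m + W * ev b m := by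
  unfold ev lin
  rw [Finset.mul_sum, ← Finset.sum_add_distrib]
  refine Finset.sum_congr rfl fun i _ => ?_
  simp only [Pi.add_apply]
  ring

lemma apb_sum {q N x : ℕ} {E : ℝ} (h : APB q N x E) (y : ℤ) (hy : 1 ≤ y)
    (hy2 : y + q * N ≤ x + 1) :
    ∑ u ∈ range N, thz (y + q * u) ≤ (q : ℝ) * N / Nat.totient q + E := by
  obtain ⟨n, rfl⟩ := Int.eq_ofNat_of_zero_le (by omega : 0 ≤ y)
  have h1 := h n (by exact_mod_cast hy) (by exact_mod_cast hy2)
  have h2 : ∑ u ∈ range N, thz ((n : ℤ) + q * u) = ∑ u ∈ range N, th (n + q * u) := by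
    refine sum_congr rfl fun u _ => ?_
    unfold thz
    have : ((n : ℤ) + q * u) = ((n + q * u : ℕ) : ℤ) := by push_cast; ring
    rw [this, Int.toNat_natCast]
  rw [h2]
  have h3 := (abs_le.mp h1).2
  split_ifs at h3
  · linarith
  · have : 0 ≤ (q : ℝ) * N / Nat.totient q := by positivity
    linarith

lemma mem_Bx {d : ℕ} {A : Fin (d + 1) → ℤ} {h : Fin (d + 1) → ℕ} {g : Fin (d + 1) → ℤ} :
    g ∈ Bx A h ↔ ∀ i, A i ≤ g i ∧ g i < A i + h i := by
  unfold Bx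
  simp only [Fintype.mem_piFinset, mem_Ico]

theorem hSmo (hTra : StTra) (hCar : StCar) (hPdg : StPdg) : StSmo := by
  intro d m₁ m₂ B W x₁ x₂ E₁ E₂ F A h hd hm₁ hm hB hW hE₁ hE₂ hA₁ hA₂ hsize
  obtain ⟨t, b, hb⟩ := hPdg d m₁ m₂ B hd hm₁ hm.le hB
  set R : ℕ := 2 * m₂ * B with hR
  set N₁ : ℕ := m₁ ^ d * B with hN₁
  set N₂ : ℕ := m₂ ^ (d - 1) * B with hN₂
  set q : ℕ := W * (m₂ - m₁) with hq
  have hN₂pos : 0 < N₂ := Nat.mul_pos (pow_pos (by omega) _) (by omega)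
  set K₁ : ℝ := (W : ℝ) * N₁ / Nat.totient W + E₁ with hK₁
  set K₂ : ℝ := (q : ℝ) * N₂ / Nat.totient q + E₂ with hK₂
  have hK₁0 : 0 ≤ K₁ := by positivity
  have hK₂0 : 0 ≤ K₂ := by positivity
  set G : (Fin (d + 1) → ℤ) → ℝ := fun g => thz (ev (lin W F g) m₁) * thz (ev (lin W F g) m₂)
    with hG
  have hG0 : ∀ g, 0 ≤ G g := fun g => mul_nonneg (thz_nn _) (thz_nn _)
  set P : Finset (Fin (d + 1) → ℤ) := Bx (fun i => A i - R) (fun i => h i + 2 * R) with hP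
  have hcard : ((#P : ℕ) : ℝ) = ∏ i, ((h i + 2 * R : ℕ) : ℝ) := by
    rw [hP, (hCar d _ _).1]
    push_cast
    rfl
  have hq' : ((q : ℕ) : ℤ) = W * ((m₂ : ℤ) - m₁) := by
    rw [hq]; push_cast [Nat.cast_sub hm.le]; ring
  -- the pointwise bound
  have key : ∀ a ∈ P, ∑ u ∈ range N₁, ∑ v ∈ range N₂, G (a + b u v) ≤ K₁ * K₂ := by
    intro a ha
    rw [hP, mem_Bx] at ha
    have hwin : ∀ i, A i - (2 * R : ℕ) ≤ a i ∧ a i < A i + h i + (2 * R : ℕ) := by
      intro i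
      have := ha i
      push_cast at this ⊢
      constructor <;> [linarith [this.1, (Nat.cast_nonneg R : (0 : ℤ) ≤ R)]; linarith [this.2, (Nat.cast_nonneg R : (0 : ℤ) ≤ R)]]
    obtain ⟨⟨s1, s2⟩, _⟩ := hsize a hwin
    have inner : ∀ u ∈ range N₁, ∑ v ∈ range N₂, G (a + b u v) ≤
        thz (ev (lin W F a) m₁ + W * u) * K₂ := by
      intro u hu
      rw [mem_range] at hu
      have hval : ∀ v ∈ range N₂, G (a + b u v) = thz (ev (lin W F a) m₁ + W * u) *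
          thz (ev (lin W F a) m₂ + W * t u + q * v) := by
        intro v hv
        rw [mem_range] at hv
        obtain ⟨_, e1, e2⟩ := hb u hu v hv
        simp only [hG]
        rw [ev_lin_add, ev_lin_add, e1, e2]
        congr 2
        rw [hq']
        ring
      rw [sum_congr rfl hval, ← mul_sum]
      refine mul_le_mul_of_nonneg_left ?_ (thz_nn _)
      obtain ⟨e0, _, e2⟩ := hb u hu 0 hN₂pos
      have hwin2 : ∀ i, A i - (2 * R : ℕ) ≤ (a + b u 0) i ∧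
          (a + b u 0) i < A i + h i + (2 * R : ℕ) := by
        intro i
        have h1 := ha i
        have h2 := abs_le.mp (e0 i)
        simp only [Pi.add_apply]
        push_cast at h1 h2 ⊢
        constructor <;> [linarith [h1.1, h2.1]; linarith [h1.2, h2.2]]
      obtain ⟨_, s3, s4⟩ := hsize (a + b u 0) hwin2
      rw [ev_lin_add, e2] at s3 s4
      simp only [Nat.cast_zero, mul_zero, add_zero] at s3 s4
      exact apb_sum hA₂ _ s3 s4
    calc ∑ u ∈ range N₁, ∑ v ∈ range N₂, G (a + b u v)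
        ≤ ∑ u ∈ range N₁, thz (ev (lin W F a) m₁ + W * u) * K₂ := sum_le_sum inner
      _ = (∑ u ∈ range N₁, thz (ev (lin W F a) m₁ + W * u)) * K₂ := by rw [sum_mul]
      _ ≤ K₁ * K₂ := mul_le_mul_of_nonneg_right (apb_sum hA₁ _ s1 s2) hK₂0
  -- translates
  have tr : ∀ u ∈ range N₁, ∀ v ∈ range N₂, ∑ g ∈ Bx A h, G g ≤ ∑ a ∈ P, G (a + b u v) := by
    intro u hu v hv
    rw [mem_range] at hu hv
    exact (hTra d R A (b u v) h G hG0 (hb u hu v hv).1).1
  calc (N₁ : ℝ) * N₂ * ∑ g ∈ Bx A h, G g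
      = ∑ _u ∈ range N₁, ∑ _v ∈ range N₂, ∑ g ∈ Bx A h, G g := by
        simp only [sum_const, card_range, nsmul_eq_mul]
        ring
    _ ≤ ∑ u ∈ range N₁, ∑ v ∈ range N₂, ∑ a ∈ P, G (a + b u v) :=
        sum_le_sum fun u hu => sum_le_sum fun v hv => tr u hu v hv
    _ = ∑ a ∈ P, ∑ u ∈ range N₁, ∑ v ∈ range N₂, G (a + b u v) := by
        rw [sum_congr rfl fun u _ => sum_comm, sum_comm]
    _ ≤ ∑ _a ∈ P, K₁ * K₂ := sum_le_sum key
    _ = (∏ i, ((h i + 2 * R : ℕ) : ℝ)) * K₁ * K₂ := by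
        rw [sum_const, nsmul_eq_mul, hcard]
        ring

end Pool.Agent.Helper82.PV
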